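import Pool.Agent.N418.FST.Defs
import Pool.Agent.TH757.FSPlane

set_option autoImplicit false

/-!
Friends-and-strangers graphs of a broom (a path with a star at one end): persons `0, 1, ..., k`
form a path and the persons `k+1, k+2, ...` are leaves attached to `0`.
-/

namespace Pool.Agent.N418.FST

open Pool.Agent.TH757.FSLol

variable {n : ℕ}

/-- The broom. -/
def brm (n k : ℕ) : SimpleGraph (Fin n) where
  Adj a b := (a.val = b.val + 1 ∧ a.val ≤ k) ∨ (b.val = a.val + 1 ∧ b.val ≤ k) ∨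
    (a.val = 0 ∧ k < b.val) ∨ (b.val = 0 ∧ k < a.val)
  symm := by
    constructor
    intro a b h
    omega
  loopless := by
    constructor
    intro a h
    omega

theorem brm_le_lol (n k : ℕ) {a b : Fin n} (h : (brm n k).Adj a b) : (lol n k).Adj a b := by
  have hne : a ≠ b := h.ne
  refine ⟨hne, ?_⟩
  rcases h with h | h | h | h
  · exact Or.inl h
  · exact Or.inr (Or.inl h)
  · exact Or.inr (Or.inr ⟨Or.inl h.1, Or.inr h.2⟩)
  · exact Or.inr (Or.inr ⟨Or.inr h.2, Or.inl h.1⟩)

theorem step_lol {X : SimpleGraph (Fin n)} {k : ℕ} {σ τ : Equiv.Perm (Fin n)}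
    (h : Step X (brm n k) σ τ) : Step X (lol n k) σ τ := by
  obtain ⟨a, b, h1, h2, h3⟩ := h
  exact ⟨a, b, h1, brm_le_lol n k h2, h3⟩

/-- A parent function with decreasing levels defines a tree. -/
theorem isTree_of_parent {V : Type} [Fintype V] (r : V) (par : V → V) (lev : V → ℕ)
    (hlev : ∀ x, x ≠ r → lev (par x) < lev x) (T : SimpleGraph V)
    (hT : ∀ x y, T.Adj x y ↔ (x ≠ r ∧ y = par x) ∨ (y ≠ r ∧ x = par y)) : T.IsTree := by
  classical
  have hadj : ∀ x, x ≠ r → T.Adj x (par x) := fun x hx => (hT _ _).2 (Or.inl ⟨hx, rfl⟩)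
  have hreach : ∀ n x, lev x = n → T.Reachable r x := by
    intro n
    induction n using Nat.strong_induction_on with
    | _ n ih =>
      intro x hx
      by_cases hr : x = r
      · rw [hr]
      · exact (ih _ (hx ▸ hlev x hr) _ rfl).trans (hadj x hr).symm.reachable
  have hconn : T.Connected := by
    have : Nonempty V := ⟨r⟩
    refine SimpleGraph.Connected.mk ?_
    intro x y
    exact (hreach _ x rfl).symm.trans (hreach _ y rfl)
  rw [SimpleGraph.isTree_iff_connected_and_card]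
  refine ⟨hconn, ?_⟩
  have h1 := hconn.card_vert_le_card_edgeSet_add_one
  have h2 : T.edgeSet ⊆ (fun x => s(x, par x)) '' {x | x ≠ r} := by
    intro e
    induction e using Sym2.ind with
    | _ x y =>
      intro h
      rw [SimpleGraph.mem_edgeSet, hT] at h
      rcases h with ⟨h1, h2⟩ | ⟨h1, h2⟩
      · exact ⟨x, h1, by simp [h2]⟩
      · exact ⟨y, h1, by simp [h2, Sym2.eq_swap]⟩
  have h3 : Nat.card T.edgeSet ≤ Fintype.card V - 1 := by
    rw [Nat.card_coe_set_eq]
    calc T.edgeSet.ncard ≤ ((fun x => s(x, par x)) '' {x | x ≠ r}).ncard :=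
          Set.ncard_le_ncard h2 (Set.toFinite _)
      _ ≤ ({x | x ≠ r} : Set V).ncard := Set.ncard_image_le (Set.toFinite _)
      _ = Fintype.card V - 1 := by
          have h4 : ({x | x ≠ r} : Set V) = ((Finset.univ.erase r : Finset V) : Set V) := by
            ext x; simp
          rw [h4, Set.ncard_coe_finset, Finset.card_erase_of_mem (Finset.mem_univ _),
            Finset.card_univ]
  have h5 : 0 < Fintype.card V := Fintype.card_pos_iff.2 ⟨r⟩
  rw [Nat.card_eq_fintype_card (α := V)] at h1 ⊢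
  omega

theorem brm_isTree (n k : ℕ) (hk : k < n) : (brm n k).IsTree := by
  have hn : 0 < n := by omega
  refine isTree_of_parent (⟨0, hn⟩ : Fin n)
    (fun v => if h : v.val ≤ k then ⟨v.val - 1, by omega⟩ else ⟨0, hn⟩) (fun v => v.val) ?_ _ ?_
  · intro x hx
    have hx0 : x.val ≠ 0 := fun h => hx (Fin.ext h)
    by_cases h : x.val ≤ k
    · simp only [h, dif_pos]
      omega
    · simp only [h, dif_neg, not_false_eq_true]
      omega
  · intro x y
    have hx0 : x ≠ (⟨0, hn⟩ : Fin n) ↔ x.val ≠ 0 := by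
      rw [Ne, Fin.ext_iff]
    have hy0 : y ≠ (⟨0, hn⟩ : Fin n) ↔ y.val ≠ 0 := by
      rw [Ne, Fin.ext_iff]
    rw [hx0, hy0]
    have e1 : (y = if h : x.val ≤ k then (⟨x.val - 1, by omega⟩ : Fin n) else ⟨0, hn⟩) ↔
        (x.val ≤ k ∧ y.val = x.val - 1) ∨ (k < x.val ∧ y.val = 0) := by
      split_ifs with h
      · rw [Fin.ext_iff]; simp only; omega
      · rw [Fin.ext_iff]; simp only; omega
    have e2 : (x = if h : y.val ≤ k then (⟨y.val - 1, by omega⟩ : Fin n) else ⟨0, hn⟩) ↔
        (y.val ≤ k ∧ x.val = y.val - 1) ∨ (k < y.val ∧ x.val = 0) := by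
      split_ifs with h
      · rw [Fin.ext_iff]; simp only; omega
      · rw [Fin.ext_iff]; simp only; omega
    rw [e1, e2]
    show ((x.val = y.val + 1 ∧ x.val ≤ k) ∨ (y.val = x.val + 1 ∧ y.val ≤ k) ∨
      (x.val = 0 ∧ k < y.val) ∨ (y.val = 0 ∧ k < x.val)) ↔ _
    omega

/-- person `i` can be brought to `w` with the persons `i+1, ..., k` left in place -/
theorem place_brm (X : SimpleGraph (Fin n)) (k : ℕ) (hk : k < n) (hX : Robust X k) :
    ∀ i : ℕ, i ≤ k → ∀ (σ : Equiv.Perm (Fin n)) (w : Fin n),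
      ¬ (i < (σ w).val ∧ (σ w).val ≤ k) →
      ∃ τ, Relation.ReflTransGen (Step X (brm n k)) σ τ ∧ (τ w).val = i ∧
        ∀ v, i < (σ v).val → (σ v).val ≤ k → τ v = σ v := by
  intro i
  induction i with
  | zero =>
    intro _ σ w hw
    have hn : 0 < n := by omega
    set x : Fin n := σ.symm ⟨0, hn⟩ with hx
    have hσx : σ x = ⟨0, hn⟩ := by rw [hx]; simp
    have hxS : x ∉ occ k 0 σ := by
      rw [mem_occ, hσx]
      simp
    have hwS : w ∉ occ k 0 σ := by
      rw [mem_occ]
      exact hw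
    have hpath := hX _ (occ_card k 0 σ) x w hxS hwS
    clear hwS hw
    induction hpath with
    | refl =>
      exact ⟨σ, Relation.ReflTransGen.refl, by rw [hσx], fun v _ _ => rfl⟩
    | @tail b c _ hbc ih2 =>
      obtain ⟨hadj, hbS, hcS⟩ := hbc
      obtain ⟨τ, hτ1, hτ2, hτ3⟩ := ih2
      have hcτ : k < (τ c).val := by
        by_contra hcon
        have h0 : 0 < (τ c).val := by
          rcases Nat.eq_zero_or_pos (τ c).val with h | h
          · exfalso
            exact hadj.ne (τ.injective (Fin.ext (by rw [hτ2, h])))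
          · exact h
        set u : Fin n := σ.symm (τ c) with hu
        have hσu : σ u = τ c := by rw [hu]; simp
        have h4 : τ u = σ u := hτ3 u (by rw [hσu]; omega) (by rw [hσu]; omega)
        rw [hσu] at h4
        have huc : u = c := τ.injective h4
        rw [huc] at hσu
        apply hcS
        rw [mem_occ, hσu]
        omega
      refine ⟨τ * Equiv.swap b c, hτ1.tail ⟨b, c, hadj, Or.inr (Or.inr (Or.inl ⟨hτ2, hcτ⟩)), rfl⟩,
        ?_, ?_⟩
      · rw [Equiv.Perm.mul_apply, Equiv.swap_apply_right, hτ2]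
      · intro v hv1 hv2
        have h5 : τ v = σ v := hτ3 v hv1 hv2
        have hvb : v ≠ b := by
          intro h
          apply hbS
          rw [mem_occ, ← h]
          exact ⟨hv1, hv2⟩
        have hvc : v ≠ c := by
          intro h
          apply hcS
          rw [mem_occ, ← h]
          exact ⟨hv1, hv2⟩
        rw [Equiv.Perm.mul_apply, Equiv.swap_apply_of_ne_of_ne hvb hvc, h5]
  | succ i ih =>
    intro hik σ w hw
    have hi1 : i + 1 < n := by omega
    set x : Fin n := σ.symm ⟨i + 1, hi1⟩ with hx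
    have hσx : σ x = ⟨i + 1, hi1⟩ := by rw [hx]; simp
    have hxS : x ∉ occ k (i + 1) σ := by
      rw [mem_occ, hσx]
      simp
    have hwS : w ∉ occ k (i + 1) σ := by
      rw [mem_occ]
      exact hw
    have hpath := hX _ (occ_card k (i + 1) σ) x w hxS hwS
    clear hwS hw
    induction hpath with
    | refl =>
      exact ⟨σ, Relation.ReflTransGen.refl, by rw [hσx], fun v _ _ => rfl⟩
    | @tail b c _ hbc ih2 =>
      obtain ⟨hadj, hbS, hcS⟩ := hbc
      obtain ⟨τ, hτ1, hτ2, hτ3⟩ := ih2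
      -- bring person i to c
      have hcτ : ¬ (i < (τ c).val ∧ (τ c).val ≤ k) := by
        rintro ⟨h1, h2⟩
        by_cases h3 : (τ c).val = i + 1
        · have : τ c = τ b := Fin.ext (by rw [h3, hτ2])
          exact hadj.ne (τ.injective this).symm
        · set u : Fin n := σ.symm (τ c) with hu
          have hσu : σ u = τ c := by rw [hu]; simp
          have h4 : τ u = σ u := hτ3 u (by rw [hσu]; omega) (by rw [hσu]; exact h2)
          rw [hσu] at h4
          have huc : u = c := τ.injective h4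
          rw [huc] at hσu
          apply hcS
          rw [mem_occ, hσu]
          omega
      obtain ⟨ρ, hρ1, hρ2, hρ3⟩ := ih (by omega) τ c hcτ
      have hρb : ρ b = τ b := hρ3 b (by rw [hτ2]; omega) (by rw [hτ2]; exact hik)
      refine ⟨ρ * Equiv.swap b c, ?_, ?_, ?_⟩
      · refine (hτ1.trans hρ1).tail ⟨b, c, hadj, Or.inl ⟨?_, ?_⟩, rfl⟩
        · rw [hρb, hτ2, hρ2]
        · rw [hρb, hτ2]; exact hik
      · rw [Equiv.Perm.mul_apply, Equiv.swap_apply_right, hρb, hτ2]
      · intro v hv1 hv2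
        have h5 : τ v = σ v := hτ3 v hv1 hv2
        have h6 : ρ v = τ v := hρ3 v (by rw [h5]; omega) (by rw [h5]; exact hv2)
        have hvb : v ≠ b := by
          intro h
          apply hbS
          rw [mem_occ, ← h]
          exact ⟨hv1, hv2⟩
        have hvc : v ≠ c := by
          intro h
          apply hcS
          rw [mem_occ, ← h]
          exact ⟨hv1, hv2⟩
        rw [Equiv.Perm.mul_apply, Equiv.swap_apply_of_ne_of_ne hvb hvc, h6, h5]

theorem fs_adj_iff (X Y : SimpleGraph (Fin n)) (σ τ : Equiv.Perm (Fin n)) :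
    (FS Y X).Adj σ.symm τ.symm ↔ Step X Y σ τ := by
  constructor
  · rintro ⟨a, b, h1, h2, h3, h4, h5⟩
    refine ⟨σ.symm a, σ.symm b, h2, by simpa using h1, ?_⟩
    have h : τ.symm = Equiv.swap (σ.symm a) (σ.symm b) * σ.symm := by
      ext v
      rw [Equiv.Perm.mul_apply]
      by_cases hva : v = a
      · rw [hva, Equiv.swap_apply_left, h3]
      · by_cases hvb : v = b
        · rw [hvb, Equiv.swap_apply_right, h4]
        · rw [Equiv.swap_apply_of_ne_of_ne, h5 v hva hvb]
          · exact fun h => hva (σ.symm.injective h)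
          · exact fun h => hvb (σ.symm.injective h)
    have h' : τ = (τ.symm)⁻¹ := by
      rfl
    rw [h', h, mul_inv_rev, Equiv.swap_inv]
    rfl
  · rintro ⟨a, b, h1, h2, h3⟩
    have h : ∀ v, τ.symm v = Equiv.swap a b (σ.symm v) := by
      intro v
      rw [Equiv.symm_apply_eq, h3, Equiv.Perm.mul_apply]
      simp
    refine ⟨σ a, σ b, h2, by simpa using h1, ?_, ?_, ?_⟩
    · rw [h]; simp
    · rw [h]; simp
    · intro v hva hvb
      rw [h, Equiv.swap_apply_of_ne_of_ne]
      · intro hh; exact hva (by rw [← hh]; simp)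
      · intro hh; exact hvb (by rw [← hh]; simp)

/-- the diameter is exponential in the side of the plane -/
theorem exists_large (p : ℕ) [Fact p.Prime] (hp : 2 < p) :
    ∃ T Y : SimpleGraph (Fin (2 * p ^ 2)), T.IsTree ∧ ∃ σ τ : Fin (2 * p ^ 2) ≃ Fin (2 * p ^ 2),
      (FS T Y).Reachable σ τ ∧ 2 ^ (p - 2) ≤ (FS T Y).dist σ τ := by
  obtain ⟨X, hG, hR, x, w, hxw, hna⟩ := exists_graph p hp
  have hk : p - 1 < 2 * p ^ 2 := by nlinarith [Nat.sub_le p 1]
  refine ⟨brm _ (p - 1), X, brm_isTree _ _ hk, ?_⟩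
  have hadj : ∀ σ τ : Equiv.Perm (Fin (2 * p ^ 2)),
      (FS (brm _ (p - 1)) X).Adj σ.symm τ.symm ↔ Step X (brm _ (p - 1)) σ τ := fs_adj_iff X _
  let P : Fin (2 * p ^ 2) := ⟨p - 1, hk⟩
  obtain ⟨τ, hτ1, hτ2, _⟩ := place_brm X (p - 1) hk hR (p - 1) le_rfl (Equiv.swap x P) w
    (fun h => absurd h.1 (not_lt.2 h.2))
  have hreach : ∀ τ, Relation.ReflTransGen (Step X (brm _ (p - 1))) (Equiv.swap x P) τ →
      (FS (brm _ (p - 1)) X).Reachable (Equiv.swap x P).symm τ.symm := by
    intro τ h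
    induction h with
    | refl => exact SimpleGraph.Reachable.refl _
    | tail _ hbc ih => exact ih.trans (SimpleGraph.Adj.reachable ((hadj _ _).2 hbc))
  refine ⟨(Equiv.swap x P).symm, τ.symm, hreach τ hτ1, ?_⟩
  obtain ⟨W, hW⟩ := (hreach τ hτ1).exists_walk_length_eq_dist
  rw [← hW]
  have hp1 : p - 1 = (p - 2) + 1 := by omega
  have hs : ∀ t, (W.getVert (t + 1)).symm = (W.getVert t).symm ∨
      Step X (lol _ ((p - 2) + 1)) (W.getVert t).symm (W.getVert (t + 1)).symm := by
    intro t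
    rcases Nat.lt_or_ge t W.length with h | h
    · right
      rw [← hp1]
      refine step_lol ((hadj _ _).1 ?_)
      rw [Equiv.symm_symm, Equiv.symm_symm]
      exact W.adj_getVert_succ h
    · left
      rw [W.getVert_of_length_le h, W.getVert_of_length_le (by omega)]
  refine top_cost hG (p - 2) (fun t => (W.getVert t).symm) hs W.length x w ?_ ?_ hxw hna
  · simp only [SimpleGraph.Walk.getVert_zero, Equiv.symm_symm, Equiv.swap_apply_left]
    exact hp1
  · simp only [SimpleGraph.Walk.getVert_length, Equiv.symm_symm]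
    rw [hτ2]
    exact hp1

/-- exponential beats polynomial along the primes -/
theorem arith (C : ℕ) : ∃ p : ℕ, p.Prime ∧ 2 < p ∧ (2 * p ^ 2) ^ C < 2 ^ (p - 2) := by
  have h1 := isLittleO_pow_const_const_pow_of_one_lt (R := ℝ) (2 * C) (r := 2) (by norm_num)
  have hc : (0 : ℝ) < 1 / (8 * 2 ^ C) := by positivity
  have h2 := h1.def hc
  rw [Filter.eventually_atTop] at h2
  obtain ⟨N, hN⟩ := h2
  obtain ⟨p, hp1, hp2⟩ := Nat.exists_infinite_primes (N + 3)
  refine ⟨p, hp2, by omega, ?_⟩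
  have h3 := hN p (by omega)
  rw [Real.norm_of_nonneg (by positivity), Real.norm_of_nonneg (by positivity)] at h3
  have h4 : 8 * 2 ^ C * (p : ℝ) ^ (2 * C) ≤ 2 ^ p := by
    have h5 : 8 * 2 ^ C * (p : ℝ) ^ (2 * C) ≤ 8 * 2 ^ C * (1 / (8 * 2 ^ C) * 2 ^ p) :=
      mul_le_mul_of_nonneg_left h3 (by positivity)
    have h6 : (8 : ℝ) * 2 ^ C * (1 / (8 * 2 ^ C) * 2 ^ p) = 2 ^ p := by
      field_simp
    rw [h6] at h5
    exact h5
  have h7 : 8 * 2 ^ C * p ^ (2 * C) ≤ 2 ^ p := by exact_mod_cast h4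
  have h8 : (2 : ℕ) ^ p = 4 * 2 ^ (p - 2) := by
    have : p = (p - 2) + 2 := by omega
    conv_lhs => rw [this]
    rw [pow_add]
    ring
  have h9 : (2 * p ^ 2) ^ C = 2 ^ C * p ^ (2 * C) := by
    rw [pow_mul, ← mul_pow]
  have h10 : 1 ≤ 2 ^ C * p ^ (2 * C) :=
    Nat.one_le_iff_ne_zero.2 (Nat.mul_ne_zero (pow_ne_zero _ (by norm_num))
      (pow_ne_zero _ (by omega)))
  rw [h9]
  have h11 : 8 * 2 ^ C * p ^ (2 * C) = 8 * (2 ^ C * p ^ (2 * C)) := by ring
  omega

end Pool.Agent.N418.FST
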