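import Mathlib

set_option autoImplicit false

/-!
The friends-and-strangers graph of two graphs.
-/

namespace Pool.Agent.N418.FST

/-- The friends-and-strangers graph `FS(X, Y)`: its vertices are the bijections `V(X) → V(Y)`; two
bijections `σ`, `τ` are adjacent when there is an edge `ab` of `X` such that `σ(a)σ(b)` is an edge of
`Y`, `τ(a) = σ(b)`, `τ(b) = σ(a)`, and `τ(v) = σ(v)` for every other vertex `v`. -/
def FS {V W : Type*} (X : SimpleGraph V) (Y : SimpleGraph W) : SimpleGraph (V ≃ W) where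
  Adj σ τ := ∃ a b : V, X.Adj a b ∧ Y.Adj (σ a) (σ b) ∧ τ a = σ b ∧ τ b = σ a ∧
    ∀ v, v ≠ a → v ≠ b → τ v = σ v
  symm := by
    constructor
    rintro σ τ ⟨a, b, h1, h2, h3, h4, h5⟩
    refine ⟨a, b, h1, ?_, h4.symm, h3.symm, fun v hva hvb => (h5 v hva hvb).symm⟩
    rw [h3, h4]
    exact h2.symm
  loopless := by
    constructor
    rintro σ ⟨a, b, h1, _, h3, _⟩
    exact h1.ne (σ.injective h3)

end Pool.Agent.N418.FST
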